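import Pool.Agent.Lib.MP_fceebd_gt.QF

/-!
# MP_fceebd_gt, Q2: full positive answer

There is an algorithm which decides, given `g` and a pseudo-Anosov mapping class `f` of genus
`g`, whether the closed Teichmueller geodesic of `f` lies on a Veech curve.
-/

theorem Pool.Agent.Results.MP_fceebd_gt.VeechCurveDecidable.result : Pool.Veech.Statement :=
  Pool.Veech.main
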